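import Pool.Agent.Y184.NT.StD
import Pool.Agent.Y184.NT.Cong

/-!
# Project NT, job NLx
-/

set_option autoImplicit false
set_option linter.overlappingInstances false

open FF Polynomial Pool.Agent.W602.GT Pool.Agent.W603.LV Pool.Agent.Y184.NT

namespace Pool.Agent.Y362.NT

/-- homomorphisms from a field generated by finitely many elements -/
theorem exists_hom {K R : Type} [Field K] [Field R] [Algebra ℂ K] [Algebra ℂ R] {N : ℕ}
    (x : Fin N → K) (u : Fin N → R) (hx : IntermediateField.adjoin ℂ (Set.range x) = ⊤)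
    (h : ∀ G : MvPolynomial (Fin N) ℂ, MvPolynomial.aeval x G = 0 ↔
      MvPolynomial.aeval u G = 0) : ∃ φ : K →ₐ[ℂ] R, ∀ j, φ (x j) = u j := by
  let f : MvPolynomial (Fin N) ℂ →ₐ[ℂ] K := MvPolynomial.aeval x
  have hfr : IsFractionRing f.range K := by
    have : FaithfulSMul f.range K :=
      (faithfulSMul_iff_algebraMap_injective f.range K).mpr Subtype.val_injective
    refine IsFractionRing.of_field f.range K fun z => ?_
    have hz : z ∈ IntermediateField.adjoin ℂ (Set.range x) := by
      rw [hx]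
      exact IntermediateField.mem_top
    obtain ⟨r, s, hrs⟩ := (IntermediateField.mem_adjoin_range_iff ℂ x z).mp hz
    exact ⟨⟨f r, ⟨r, rfl⟩⟩, ⟨f s, ⟨s, rfl⟩⟩, hrs⟩
  let g0 : (MvPolynomial (Fin N) ℂ ⧸ RingHom.ker f) →ₐ[ℂ] R :=
    Ideal.Quotient.liftₐ (RingHom.ker f) (MvPolynomial.aeval u) (fun G hG => (h G).mp hG)
  let e := Ideal.quotientKerEquivRange f
  let g : f.range →ₐ[ℂ] R := g0.comp (e.symm : f.range →ₐ[ℂ] _)
  have hg0 : Function.Injective g0 := by
    rw [injective_iff_map_eq_zero]
    intro y hy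
    obtain ⟨G, rfl⟩ := Ideal.Quotient.mk_surjective y
    have h1 : MvPolynomial.aeval u G = 0 := hy
    exact Ideal.Quotient.eq_zero_iff_mem.mpr ((h G).mpr h1)
  have hg : Function.Injective g := hg0.comp e.symm.injective
  refine ⟨IsFractionRing.liftAlgHom hg, fun j => ?_⟩
  have h1 : x j = algebraMap f.range K ⟨f (MvPolynomial.X j), ⟨_, rfl⟩⟩ := by
    show x j = f (MvPolynomial.X j)
    simp [f]
  have h2 : e (Ideal.Quotient.mk (RingHom.ker f) (MvPolynomial.X j)) =
      ⟨f (MvPolynomial.X j), ⟨_, rfl⟩⟩ := rfl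
  rw [h1, IsFractionRing.liftAlgHom_apply, IsFractionRing.lift_algebraMap, ← h2]
  show g0 (e.symm (e _)) = _
  rw [AlgEquiv.symm_apply_apply]
  show MvPolynomial.aeval u (MvPolynomial.X j) = u j
  simp

theorem nlx (hNLG : StNLG) : StNLx := by
  intro L K _ _ _ _ _ _ _ n N l hn z hz ω hω hreg hne x hx a b τ hb hxab
  by_contra hcon
  push Not at hcon
  have h1 : ∀ G : MvPolynomial (Fin N) ℂ, aeval τ (restr G a b) = MvPolynomial.aeval x G := by
    intro G
    have h5 := MvPolynomial.comp_aeval_apply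
      (φ := (aeval τ : L[X] →ₐ[L] K).restrictScalars ℂ) (lin a b) G
    have h6 : (fun j => (aeval τ : L[X] →ₐ[L] K).restrictScalars ℂ (lin a b j)) = x := by
      funext j
      change aeval τ (lin a b j) = _
      rw [aeval_lin, hxab]
    rw [h6] at h5
    rw [← h5]
    rfl
  have h2 : ∀ G : MvPolynomial (Fin N) ℂ, MvPolynomial.aeval x G = 0 ↔
      MvPolynomial.aeval (fun j => io (lin a b j)) G = 0 := by
    intro G
    rw [← io_restr]
    constructor
    · intro h
      rw [hcon G h]
      exact map_zero _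
    · intro h
      have h3 : restr G a b = 0 := by
        apply IsFractionRing.injective L[X] (RatFunc L)
        rw [map_zero]
        exact h
      rw [← h1, h3, map_zero]
  obtain ⟨φ, hφ⟩ := exists_hom x (fun j => io (lin a b j)) hx h2
  apply hb
  funext j
  obtain ⟨c, hc⟩ := hNLG K L n l hn z hz ω hω hreg hne φ (x j)
  rw [hφ, ← io_C] at hc
  have h4 : lin a b j = C c := IsFractionRing.injective L[X] (RatFunc L) hc
  have h5 := congrArg (fun p => Polynomial.coeff p 1) h4
  simpa [Pool.Agent.Y184.NT.lin] using h5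

end Pool.Agent.Y362.NT

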