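import Pool.Agent.Y517.NT.Sys

/-!
# NT-ZTWO: closed planar null sets carry no mass (helper362)
-/

set_option autoImplicit false

open Set Filter Topology MeasureTheory

namespace Pool.Agent.Y362.NT

open Pool.Agent.Y517.NT

section

variable {X K : Type} [TopologicalSpace X] [TopologicalSpace K]

lemma br_cont (s : Sys X K) {f g : X → ℝ} (hf : f ∈ s.S) (hg : g ∈ s.S) : Continuous (s.br f g) := by
  unfold Sys.br
  exact ((s.D_cont f hf).mul (s.D'_cont g hg)).sub ((s.D'_cont f hf).mul (s.D_cont g hg))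

lemma int_cont [CompactSpace K] [MeasurableSpace K] [BorelSpace K] (μ : Measure K) [IsFiniteMeasure μ] {F : K → ℝ}
    (hF : Continuous F) : Integrable F μ :=
  hF.integrable_of_hasCompactSupport (HasCompactSupport.of_compactSpace F)

end

/-- closed planar null sets: the integrals with continuous coefficients -/
lemma int_zero (h2 : S_TWO) (he : S_EXT) {X K : Type} [TopologicalSpace X] [TopologicalSpace K] [CompactSpace X]
    [T2Space X] [SecondCountableTopology X] [CompactSpace K] [MeasurableSpace K] [BorelSpace K]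
    (s : Sys X K) (μ : Measure K) [IsFiniteMeasure μ] (hcl : s.Cl μ) {C : Set X} (hC : IsClosed C)
    (hN : s.PN C) {f g : X → ℝ} (hf : f ∈ s.S) (hg : g ∈ s.S) {b : X → ℝ} (hb : Continuous b) :
    ∫ z in s.p ⁻¹' C, b (s.p z) * s.br f g z ∂μ = 0 := by
  set P : Set (ℝ × ℝ) := (fun x => (f x, g x)) '' C with hP
  have hPc : IsCompact P := hC.isCompact.image ((s.S_cont f hf).prodMk (s.S_cont g hg))
  have hmap : Continuous fun z => (f (s.p z), g (s.p z)) :=
    ((s.S_cont f hf).comp s.p_cont).prodMk ((s.S_cont g hg).comp s.p_cont)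
  have hE : MeasurableSet {z | (f (s.p z), g (s.p z)) ∈ P} :=
    (hPc.isClosed.preimage hmap).measurableSet
  have hθ : Integrable (indicator {z | (f (s.p z), g (s.p z)) ∈ P} (s.br f g)) μ :=
    (int_cont μ (br_cont s hf hg)).indicator hE
  have h3 : ∀ χ ∈ s.S, ∫ z, χ (s.p z) * indicator {z | (f (s.p z), g (s.p z)) ∈ P} (s.br f g) z ∂μ = 0 := by
    intro χ hχ
    have h4 := h2 X K s μ hcl P hPc (hN f hf g hg) χ hχ f hf g hg
    rw [← integral_indicator hE] at h4
    rw [← h4]
    refine integral_congr_ae (Eventually.of_forall fun z => ?_)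
    by_cases hz : z ∈ {z | (f (s.p z), g (s.p z)) ∈ P}
    · simp only [indicator_of_mem hz]
    · simp only [indicator_of_notMem hz, mul_zero]
  have h5 := (he X K s μ _ hθ h3 b hb).2 C hC
  rw [← h5]
  refine setIntegral_congr_fun (hC.preimage s.p_cont).measurableSet fun z hz => ?_
  have hz' : z ∈ {z | (f (s.p z), g (s.p z)) ∈ P} := ⟨s.p z, hz, rfl⟩
  simp only [indicator_of_mem hz']

theorem t_ZTWO : S_TWO → S_EXT → S_ZTWO := by
  intro h2 he X K _ _ _ _ _ _ _ _ s μ _ hcl C hC hN
  have hm : MeasurableSet (s.p ⁻¹' C) := (hC.preimage s.p_cont).measurableSet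
  -- the differentials vanish
  have key : ∀ g ∈ s.S, ∀ᵐ z ∂(μ.restrict (s.p ⁻¹' C)), s.D g z = 0 ∧ s.D' g z = 0 := by
    intro g hg
    obtain ⟨n, b, h, hb, hh, hr⟩ := s.rot g hg
    have hsq : ∀ z, ∑ k, b k (s.p z) * s.br (h k) g z = s.D g z ^ 2 + s.D' g z ^ 2 := by
      intro z
      obtain ⟨h1, h3⟩ := hr z
      have h4 : ∑ k, b k (s.p z) * s.br (h k) g z =
          (∑ k, b k (s.p z) * s.D (h k) z) * s.D' g z - (∑ k, b k (s.p z) * s.D' (h k) z) * s.D g z := by
        rw [Finset.sum_mul, Finset.sum_mul, ← Finset.sum_sub_distrib]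
        refine Finset.sum_congr rfl fun k _ => ?_
        unfold Sys.br
        ring
      have h5 : ∑ k, b k (s.p z) * s.D' (h k) z = - s.D g z := by linarith
      rw [h4, ← h1, h5]
      ring
    have h6 : ∫ z in s.p ⁻¹' C, (s.D g z ^ 2 + s.D' g z ^ 2) ∂μ = 0 := by
      have h7 : ∫ z in s.p ⁻¹' C, (s.D g z ^ 2 + s.D' g z ^ 2) ∂μ =
          ∫ z in s.p ⁻¹' C, ∑ k, b k (s.p z) * s.br (h k) g z ∂μ := by
        refine integral_congr_ae (Eventually.of_forall fun z => ?_)
        exact (hsq z).symm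
      rw [h7, integral_finsetSum]
      · exact Finset.sum_eq_zero fun k _ => int_zero h2 he s μ hcl hC hN (hh k) hg (hb k)
      · intro k _
        exact (int_cont μ (((hb k).comp s.p_cont).mul (br_cont s (hh k) hg))).integrableOn
    have hint : Integrable (fun z => s.D g z ^ 2 + s.D' g z ^ 2) (μ.restrict (s.p ⁻¹' C)) :=
      (int_cont μ (((s.D_cont g hg).pow 2).add ((s.D'_cont g hg).pow 2))).integrableOn
    have h8 := (integral_eq_zero_iff_of_nonneg (μ := μ.restrict (s.p ⁻¹' C))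
      (fun z => by positivity) hint).1 h6
    filter_upwards [h8] with z hz
    have hz' : s.D g z ^ 2 + s.D' g z ^ 2 = 0 := hz
    constructor
    · nlinarith [sq_nonneg (s.D g z), sq_nonneg (s.D' g z), sq_eq_zero_iff.1 (le_antisymm
        (by nlinarith [sq_nonneg (s.D g z), sq_nonneg (s.D' g z)]) (sq_nonneg (s.D g z)) : s.D g z ^ 2 = 0)]
    · nlinarith [sq_nonneg (s.D g z), sq_nonneg (s.D' g z), sq_eq_zero_iff.1 (le_antisymm
        (by nlinarith [sq_nonneg (s.D g z), sq_nonneg (s.D' g z)]) (sq_nonneg (s.D' g z)) : s.D' g z ^ 2 = 0)]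
  obtain ⟨n, h, hh, hz⟩ := s.span
  have hall : ∀ᵐ z ∂(μ.restrict (s.p ⁻¹' C)), ∀ k, s.D (h k) z = 0 ∧ s.D' (h k) z = 0 :=
    ae_all_iff.2 fun k => key (h k) (hh k)
  have hfalse : ∀ᵐ _ ∂(μ.restrict (s.p ⁻¹' C)), False := by
    filter_upwards [hall] with z hz'
    obtain ⟨k, hk⟩ := hz z
    rcases hk with hk | hk
    · exact hk (hz' k).1
    · exact hk (hz' k).2
  rw [ae_iff] at hfalse
  simp only [not_false_eq_true, Set.ofPred_true, Measure.restrict_apply MeasurableSet.univ, univ_inter] at hfalse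
  exact hfalse

end Pool.Agent.Y362.NT
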